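import Mathlib
import Pool.Agent.Q199.QL.Defs
import Pool.Agent.Q199.QL.Spaces
import Pool.Agent.Q199.QL.Main

set_option autoImplicit false

namespace Pool.Agent.Results.MP_8983f3_an.NotNormable

open Pool.Agent.Q199.QL TopologicalSpace

/-- There are separable Banach spaces `X`, `Y`, `M`, an injective linear map
`j : M → Y` of norm at most one (so that `M` is a linear subspace of `Y` with a stronger complete
norm) and a Borel map `φ : X → Y`, linear modulo `M`, such that the preimage `V` of `M` carries a
Polish vector space topology whose Borel sets are the Borel subsets of `X` contained in `V`, and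
no such topology is induced by a norm. -/
theorem result :
    ∃ (X Y M : Type) (_ : NormedAddCommGroup X) (_ : NormedSpace ℝ X) (_ : CompleteSpace X)
      (_ : SeparableSpace X) (_ : NormedAddCommGroup Y) (_ : NormedSpace ℝ Y)
      (_ : CompleteSpace Y) (_ : SeparableSpace Y) (_ : NormedAddCommGroup M)
      (_ : NormedSpace ℝ M) (_ : CompleteSpace M) (_ : SeparableSpace M) (j : M →ₗ[ℝ] Y) (φ : X → Y)
      (V : Submodule ℝ X),
      Function.Injective j ∧ (∀ m, ‖j m‖ ≤ ‖m‖) ∧
      @Measurable X Y (borel X) (borel Y) φ ∧
      (∀ (a b : ℝ) (x y : X), φ (a • x + b • y) - (a • φ x + b • φ y) ∈ Set.range j) ∧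
      (∀ x, x ∈ V ↔ φ x ∈ Set.range j) ∧
      (∃ τ : TopologicalSpace V, IsGoodTopology V τ) ∧
      ∀ τ : TopologicalSpace V, IsGoodTopology V τ → ¬ IsNormable τ := by
  refine ⟨L1, CZ, L1, inferInstance, inferInstance, inferInstance, inferInstance, inferInstance,
    inferInstance, inferInstance, inferInstance, inferInstance, inferInstance, inferInstance,
    inferInstance, jj, phi, VV, jj_inj, jj_norm, ?_, ?_, mem_VV, ⟨tau, tau_good⟩, ?_⟩
  · exact phi_continuous.borel_measurable
  · intro a b x y
    exact ⟨_, (phi_quasi a b x y).symm⟩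
  · intro τ hτ
    rw [good_unique hτ tau_good]
    exact tau_not_normable

end Pool.Agent.Results.MP_8983f3_an.NotNormable
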